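import Pool.Agent.H10.FEW.Stmts

set_option autoImplicit false

namespace Pool.FEW

open Finset Pool.Agent.H98.ABCR Pool.SHA

/-- at least a quarter of the pairs of a rectangle are coprime -/
lemma low_rect (N M : ℕ) :
    (N : ℝ) * M / 4 ≤
      (((Icc 1 N ×ˢ Icc 1 M).filter fun t : ℕ × ℕ => Nat.Coprime t.1 t.2).card : ℝ) := by
  classical
  set P := Icc 1 N ×ˢ Icc 1 M with hP
  have hPc : (P.card : ℝ) = (N : ℝ) * M := by
    rw [hP, card_product, Nat.card_Icc, Nat.card_Icc]; push_cast; ring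
  have hcov : P.filter (fun t : ℕ × ℕ => ¬ Nat.Coprime t.1 t.2) ⊆
      (Icc 2 N).biUnion fun d => (Icc 1 (N / d) ×ˢ Icc 1 (M / d)).image
        fun s : ℕ × ℕ => (d * s.1, d * s.2) := by
    intro t ht
    obtain ⟨h1, h2⟩ := mem_filter.1 ht
    rw [hP, mem_product, mem_Icc, mem_Icc] at h1
    obtain ⟨⟨ha1, ha2⟩, hb1, hb2⟩ := h1
    have hg1 : Nat.gcd t.1 t.2 ≠ 1 := h2
    have hg0 : 0 < Nat.gcd t.1 t.2 := Nat.gcd_pos_of_pos_left _ ha1
    set d := Nat.gcd t.1 t.2 with hd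
    have hdl : d ∣ t.1 := Nat.gcd_dvd_left _ _
    have hdr : d ∣ t.2 := Nat.gcd_dvd_right _ _
    rw [mem_biUnion]
    refine ⟨d, mem_Icc.2 ⟨by omega, (Nat.le_of_dvd ha1 hdl).trans ha2⟩, ?_⟩
    rw [mem_image]
    refine ⟨(t.1 / d, t.2 / d), ?_, ?_⟩
    · rw [mem_product, mem_Icc, mem_Icc]
      exact ⟨⟨Nat.div_pos (Nat.le_of_dvd ha1 hdl) hg0, Nat.div_le_div_right ha2⟩,
        ⟨Nat.div_pos (Nat.le_of_dvd hb1 hdr) hg0, Nat.div_le_div_right hb2⟩⟩
    · simp only [Nat.mul_div_cancel' hdl, Nat.mul_div_cancel' hdr]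
  have hNM : (0 : ℝ) ≤ (N : ℝ) * M := by positivity
  have hbad : ((P.filter (fun t : ℕ × ℕ => ¬ Nat.Coprime t.1 t.2)).card : ℝ) ≤
      3 / 4 * ((N : ℝ) * M) := by
    have h1 : ((P.filter (fun t : ℕ × ℕ => ¬ Nat.Coprime t.1 t.2)).card : ℝ) ≤
        ∑ d ∈ Icc 2 N, ((N / d : ℕ) : ℝ) * ((M / d : ℕ) : ℝ) := by
      calc ((P.filter (fun t : ℕ × ℕ => ¬ Nat.Coprime t.1 t.2)).card : ℝ)
          ≤ (((Icc 2 N).biUnion fun d => (Icc 1 (N / d) ×ˢ Icc 1 (M / d)).image
        fun s : ℕ × ℕ => (d * s.1, d * s.2)).card : ℝ) := by exact_mod_cast card_le_card hcov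
        _ ≤ ∑ d ∈ Icc 2 N, (((Icc 1 (N / d) ×ˢ Icc 1 (M / d)).image
        fun s : ℕ × ℕ => (d * s.1, d * s.2)).card : ℝ) := by exact_mod_cast card_biUnion_le
        _ ≤ ∑ d ∈ Icc 2 N, ((N / d : ℕ) : ℝ) * ((M / d : ℕ) : ℝ) := by
          refine sum_le_sum fun d _ => ?_
          have := card_image_le (s := Icc 1 (N / d) ×ˢ Icc 1 (M / d))
            (f := fun s : ℕ × ℕ => (d * s.1, d * s.2))
          rw [card_product, Nat.card_Icc, Nat.card_Icc] at this
          calc _ ≤ (((N / d + 1 - 1) * (M / d + 1 - 1) : ℕ) : ℝ) := by exact_mod_cast this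
            _ = ((N / d : ℕ) : ℝ) * ((M / d : ℕ) : ℝ) := by
                rw [Nat.add_sub_cancel, Nat.add_sub_cancel]; push_cast; ring
    refine h1.trans ?_
    have h2 : ∀ M : ℕ, ∑ d ∈ Icc 2 M, (1 : ℝ) / (d : ℝ) ^ 2 ≤ 3 / 4 := by
      intro M
      have h3 : 2 ≤ M → ∑ d ∈ Icc 2 M, (1 : ℝ) / (d : ℝ) ^ 2 ≤ 3 / 4 - 1 / (M : ℝ) := by
        intro hM
        induction M, hM using Nat.le_induction with
        | base => norm_num
        | succ M hM ih =>
          rw [sum_Icc_succ_top (by omega)]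
          have hM0 : (0 : ℝ) < M := by exact_mod_cast (by omega : 0 < M)
          have : (1 : ℝ) / ((M + 1 : ℕ) : ℝ) ^ 2 ≤ 1 / (M : ℝ) - 1 / ((M + 1 : ℕ) : ℝ) := by
            push_cast
            rw [div_sub_div _ _ hM0.ne' (by positivity), div_le_div_iff₀ (by positivity) (by positivity)]
            nlinarith
          linarith
      rcases Nat.lt_or_ge M 2 with h | h
      · rw [Icc_eq_empty (by omega)]; norm_num
      · have := h3 h
        have h4 : (0 : ℝ) ≤ 1 / (M : ℝ) := by positivity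
        linarith
    calc ∑ d ∈ Icc 2 N, ((N / d : ℕ) : ℝ) * ((M / d : ℕ) : ℝ)
          ≤ ∑ d ∈ Icc 2 N, ((N : ℝ) * M) * (1 / (d : ℝ) ^ 2) := by
          refine sum_le_sum fun d hd => ?_
          have hd2 : 2 ≤ d := (mem_Icc.1 hd).1
          have e1 : ((N / d : ℕ) : ℝ) ≤ (N : ℝ) / d := Nat.cast_div_le
          have e2 : ((M / d : ℕ) : ℝ) ≤ (M : ℝ) / d := Nat.cast_div_le
          calc ((N / d : ℕ) : ℝ) * ((M / d : ℕ) : ℝ) ≤ ((N : ℝ) / d) * ((M : ℝ) / d) :=
                mul_le_mul e1 e2 (Nat.cast_nonneg _) (by positivity)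
            _ = _ := by ring
      _ = ((N : ℝ) * M) * ∑ d ∈ Icc 2 N, (1 : ℝ) / (d : ℝ) ^ 2 := by rw [mul_sum]
      _ ≤ ((N : ℝ) * M) * (3 / 4) := mul_le_mul_of_nonneg_left (h2 N) hNM
      _ = 3 / 4 * ((N : ℝ) * M) := by ring
  have hsplit := card_filter_add_card_filter_not (s := P) (fun t : ℕ × ℕ => Nat.Coprime t.1 t.2)
  have hsplit' : ((P.filter fun t : ℕ × ℕ => Nat.Coprime t.1 t.2).card : ℝ) +
      ((P.filter fun t : ℕ × ℕ => ¬ Nat.Coprime t.1 t.2).card : ℝ) = (N : ℝ) * M := by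
    rw [← hPc]; exact_mod_cast hsplit
  linarith

/-- few integers have many prime factors -/
lemma low_big (hR : S_RAD) (Z X : ℝ) (hZ : 1 ≤ Z) (hZX : Z ≤ X) :
    (((Icc 1 ⌊Z⌋₊).filter fun n => 56 * (1 + Real.log X) ^ 2 < (2 : ℝ) ^ om n).card : ℝ) * 56 ≤ Z := by
  have h1 := (hR 2 Z (by norm_num) hZ).1
  have hlZ : 0 ≤ Real.log Z := Real.log_nonneg hZ
  have hlX : Real.log Z ≤ Real.log X := Real.log_le_log (by linarith) hZX
  set T : ℝ := 56 * (1 + Real.log X) ^ 2 with hT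
  have hT0 : 0 < (1 + Real.log X) ^ 2 := pow_pos (by linarith) 2
  have h2 : (((Icc 1 ⌊Z⌋₊).filter fun n => T < (2 : ℝ) ^ om n).card : ℝ) * T ≤
      ∑ n ∈ Icc 1 ⌊Z⌋₊, ((2 : ℕ) : ℝ) ^ om n := by
    calc (((Icc 1 ⌊Z⌋₊).filter fun n => T < (2 : ℝ) ^ om n).card : ℝ) * T
        = ∑ n ∈ (Icc 1 ⌊Z⌋₊).filter fun n => T < (2 : ℝ) ^ om n, T := by
          rw [sum_const, nsmul_eq_mul]
      _ ≤ ∑ n ∈ (Icc 1 ⌊Z⌋₊).filter fun n => T < (2 : ℝ) ^ om n, ((2 : ℕ) : ℝ) ^ om n := by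
          refine sum_le_sum fun n hn => ?_
          have := (mem_filter.1 hn).2
          push_cast
          exact this.le
      _ ≤ _ := sum_le_sum_of_subset_of_nonneg (filter_subset _ _) fun n _ _ => by positivity
  have h3 : Z * (1 + Real.log Z) ^ 2 ≤ Z * (1 + Real.log X) ^ 2 := by
    have : (1 + Real.log Z) ^ 2 ≤ (1 + Real.log X) ^ 2 := by
      apply pow_le_pow_left₀ (by linarith) (by linarith)
    nlinarith
  have h4 : (((Icc 1 ⌊Z⌋₊).filter fun n => T < (2 : ℝ) ^ om n).card : ℝ) * 56 *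
      (1 + Real.log X) ^ 2 ≤ Z * (1 + Real.log X) ^ 2 := by
    calc _ = (((Icc 1 ⌊Z⌋₊).filter fun n => T < (2 : ℝ) ^ om n).card : ℝ) * T := by
          rw [hT]; ring
      _ ≤ _ := h2
      _ ≤ _ := h1
      _ ≤ _ := h3
  exact le_of_mul_le_mul_right h4 hT0

lemma low_om_mul (a b : ℕ) (ha : a ≠ 0) (hb : b ≠ 0) : om (a * b) ≤ om a + om b := by
  unfold om
  rw [Nat.primeFactors_mul ha hb]
  exact card_union_le _ _

lemma low_rad_le (n : ℕ) (hn : 0 < n) : rad n ≤ n :=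
  Nat.le_of_dvd hn (Nat.prod_primeFactors_dvd _)

/-- lower bound -/
theorem low_thm (hR : S_RAD) : S_LOW := by
  classical
  refine ⟨1 / 128, 40, 64, by norm_num, by norm_num, by norm_num, ?_⟩
  intro X Y k hX hY hYX hk
  have hX0 : 0 < X := by linarith
  have hY0 : 0 < Y := by linarith
  set W : ℝ := Real.sqrt (X / Y) with hW
  have hXY0 : 0 < X / Y := by positivity
  have hW0 : 0 < W := Real.sqrt_pos.2 hXY0
  have hW2 : W ^ 2 = X / Y := Real.sq_sqrt hXY0.le
  have hW2' : Y * W ^ 2 = X := by rw [hW2]; field_simp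
  have hY3 : Y ^ 3 ≤ X := by
    calc Y ^ 3 ≤ (X ^ (1 / 3 : ℝ)) ^ 3 := pow_le_pow_left₀ hY0.le hYX 3
      _ = X := by
        rw [← Real.rpow_natCast, ← Real.rpow_mul hX0.le]
        norm_num
  have hYW : Y ≤ W := by
    have h1 : Y ^ 2 ≤ W ^ 2 := by
      have : Y * Y ^ 2 ≤ Y * W ^ 2 := by rw [hW2']; nlinarith
      exact le_of_mul_le_mul_left this hY0
    exact le_of_sq_le_sq h1 hW0.le
  have hW4 : 4 ≤ W := by
    by_contra hlt
    push Not at hlt
    have h1 : Y * W ^ 2 < 4 * 4 ^ 2 := by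
      have h2 : W ^ 2 < 4 ^ 2 := pow_lt_pow_left₀ hlt hW0.le (by norm_num)
      calc Y * W ^ 2 < Y * 4 ^ 2 := mul_lt_mul_of_pos_left h2 hY0
        _ ≤ 4 * 4 ^ 2 := mul_le_mul_of_nonneg_right (by linarith) (by norm_num)
    rw [hW2'] at h1
    linarith
  set A : ℕ := ⌊Y⌋₊ with hA
  set N : ℕ := ⌊W / 2⌋₊ with hN
  have hA1 : 1 ≤ A := Nat.le_floor (by exact_mod_cast hY)
  have hA1' : (1 : ℝ) ≤ A := by exact_mod_cast hA1
  have hAY : (A : ℝ) ≤ Y := Nat.floor_le hY0.le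
  have hYA : Y ≤ 2 * A := by
    have := Nat.lt_floor_add_one Y
    rw [← hA] at this
    linarith
  have hNW : (N : ℝ) ≤ W / 2 := Nat.floor_le (by linarith)
  have hWN : W ≤ 4 * N := by
    have h1 := Nat.lt_floor_add_one (W / 2)
    rw [← hN] at h1
    linarith
  have hN1' : (1 : ℝ) ≤ N := by linarith
  have hlX : 0 ≤ Real.log X := Real.log_nonneg (by linarith)
  set T : ℝ := 56 * (1 + Real.log X) ^ 2 with hT
  have hT1 : 1 ≤ T := by
    have : 1 ≤ (1 + Real.log X) ^ 2 := one_le_pow₀ (by linarith)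
    linarith
  set P := Icc 1 A ×ˢ Icc 1 N with hP
  set F := P.filter (fun t : ℕ × ℕ => Nat.Coprime t.1 t.2 ∧ (2 : ℝ) ^ om t.1 ≤ T ∧
    (2 : ℝ) ^ om t.2 ≤ T ∧ (2 : ℝ) ^ om (t.1 + t.2) ≤ T) with hF
  -- bad sets
  set BA := (Icc 1 ⌊Y⌋₊).filter fun n => T < (2 : ℝ) ^ om n with hBA
  set BN := (Icc 1 ⌊W / 2⌋₊).filter fun n => T < (2 : ℝ) ^ om n with hBN
  set BS := (Icc 1 ⌊(A : ℝ) + N⌋₊).filter fun n => T < (2 : ℝ) ^ om n with hBS
  have hWX2 : W ^ 2 ≤ X := by
    calc W ^ 2 = 1 * W ^ 2 := (one_mul _).symm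
      _ ≤ Y * W ^ 2 := mul_le_mul_of_nonneg_right hY (sq_nonneg W)
      _ = X := hW2'
  have hW4W : 4 * W ≤ W ^ 2 := by
    rw [sq]
    exact mul_le_mul_of_nonneg_right hW4 hW0.le
  have hWX : W ≤ X := by linarith
  have hcA : (BA.card : ℝ) * 56 ≤ Y := low_big hR Y X hY (hYW.trans hWX)
  have hcN : (BN.card : ℝ) * 56 ≤ W / 2 := low_big hR (W / 2) X (by linarith) (by linarith)
  have hcS : (BS.card : ℝ) * 56 ≤ (A : ℝ) + N := low_big hR _ X (by linarith) (by linarith)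
  have hcov : P.filter (fun t : ℕ × ℕ => Nat.Coprime t.1 t.2) ⊆
      F ∪ (BA ×ˢ Icc 1 N ∪ (Icc 1 A ×ˢ BN ∪
        (Icc 1 A ×ˢ BS).image fun s : ℕ × ℕ => (s.1, s.2 - s.1))) := by
    intro t ht
    obtain ⟨h1, h2⟩ := mem_filter.1 ht
    have h1' := h1
    rw [hP, mem_product] at h1'
    obtain ⟨ha, hb⟩ := h1'
    by_cases c1 : (2 : ℝ) ^ om t.1 ≤ T
    · by_cases c2 : (2 : ℝ) ^ om t.2 ≤ T
      · by_cases c3 : (2 : ℝ) ^ om (t.1 + t.2) ≤ T
        · exact mem_union_left _ (mem_filter.2 ⟨h1, h2, c1, c2, c3⟩)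
        · refine mem_union_right _ (mem_union_right _ (mem_union_right _ ?_))
          rw [mem_image]
          refine ⟨(t.1, t.1 + t.2), ?_, ?_⟩
          · rw [mem_product]
            refine ⟨ha, ?_⟩
            rw [hBS, mem_filter]
            refine ⟨?_, lt_of_not_ge c3⟩
            rw [mem_Icc] at ha hb ⊢
            refine ⟨by omega, Nat.le_floor ?_⟩
            push_cast
            have e1 : (t.1 : ℝ) ≤ A := by exact_mod_cast ha.2
            have e2 : (t.2 : ℝ) ≤ N := by exact_mod_cast hb.2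
            linarith
          · ext
            · rfl
            · simp
      · refine mem_union_right _ (mem_union_right _ (mem_union_left _ ?_))
        rw [mem_product]
        exact ⟨ha, by rw [hBN, mem_filter]; exact ⟨hb, lt_of_not_ge c2⟩⟩
    · refine mem_union_right _ (mem_union_left _ ?_)
      rw [mem_product]
      exact ⟨by rw [hBA, mem_filter]; exact ⟨ha, lt_of_not_ge c1⟩, hb⟩
  have hcard1 : (A : ℝ) * N / 4 ≤ (F.card : ℝ) + ((BA.card : ℝ) * N + ((A : ℝ) * BN.card +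
      (A : ℝ) * BS.card)) := by
    refine (low_rect A N).trans ?_
    have e1 := card_le_card hcov
    have e2 := card_union_le F (BA ×ˢ Icc 1 N ∪ (Icc 1 A ×ˢ BN ∪
        (Icc 1 A ×ˢ BS).image fun s : ℕ × ℕ => (s.1, s.2 - s.1)))
    have e3 := card_union_le (BA ×ˢ Icc 1 N) (Icc 1 A ×ˢ BN ∪
        (Icc 1 A ×ˢ BS).image fun s : ℕ × ℕ => (s.1, s.2 - s.1))
    have e4 := card_union_le (Icc 1 A ×ˢ BN)
        ((Icc 1 A ×ˢ BS).image fun s : ℕ × ℕ => (s.1, s.2 - s.1))
    have e5 := card_image_le (s := Icc 1 A ×ˢ BS) (f := fun s : ℕ × ℕ => (s.1, s.2 - s.1))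
    rw [card_product, Nat.card_Icc, Nat.add_sub_cancel] at e3 e4 e5
    have e6 : (P.filter (fun t : ℕ × ℕ => Nat.Coprime t.1 t.2)).card ≤
        F.card + (BA.card * N + (A * BN.card + A * BS.card)) := by omega
    exact_mod_cast e6
  have hFc : (A : ℝ) * N / 16 ≤ F.card := by
    have e1 : (BA.card : ℝ) * N ≤ (2 * A / 56) * N :=
      mul_le_mul_of_nonneg_right (by linarith) (by linarith)
    have e2 : (A : ℝ) * BN.card ≤ A * (2 * N / 56) :=
      mul_le_mul_of_nonneg_left (by linarith) (by linarith)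
    have e3 : (A : ℝ) * BS.card ≤ A * (5 * N / 56) :=
      mul_le_mul_of_nonneg_left (by linarith) (by linarith)
    have e4 : (0 : ℝ) ≤ (A : ℝ) * N := by positivity
    linarith
  refine ⟨F, ?_, ?_⟩
  · have e1 : Real.sqrt (X * Y) = Y * W := by
      rw [← hW2']
      rw [show Y * W ^ 2 * Y = (Y * W) ^ 2 by ring]
      exact Real.sqrt_sq (by positivity)
    rw [e1]
    have e2 : Y * W ≤ (2 * A) * (4 * N) := mul_le_mul hYA hWN hW0.le (by linarith)
    have e3 : (2 * (A : ℝ)) * (4 * N) = 8 * ((A : ℝ) * N) := by ring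
    linarith
  · intro v hv
    rw [hF, mem_filter, hP, mem_product, mem_Icc, mem_Icc] at hv
    obtain ⟨⟨⟨ha1, ha2⟩, hb1, hb2⟩, hc, ho1, ho2, ho3⟩ := hv
    have ha' : (v.1 : ℝ) ≤ Y := le_trans (by exact_mod_cast ha2) hAY
    have hb' : (v.2 : ℝ) ≤ W / 2 := le_trans (by exact_mod_cast hb2) hNW
    have ha0 : (1 : ℝ) ≤ v.1 := by exact_mod_cast ha1
    have hb0 : (1 : ℝ) ≤ v.2 := by exact_mod_cast hb1
    have hpos : 0 < nn v := by unfold nn; positivity
    have hnn : ((nn v : ℕ) : ℝ) ≤ X := by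
      unfold nn
      push_cast
      calc (v.1 : ℝ) * v.2 * (v.1 + v.2) ≤ Y * (W / 2) * (W + W / 2) := by
            refine mul_le_mul (mul_le_mul ha' hb' (by linarith) hY0.le) (by linarith) (by linarith)
              (by positivity)
        _ = 3 / 4 * (Y * W ^ 2) := by ring
        _ ≤ X := by rw [hW2']; linarith
    refine ⟨⟨ha1, hb1, hc⟩, ?_, ?_, ?_, ?_⟩
    · refine le_trans ?_ hnn
      exact_mod_cast low_rad_le _ hpos
    · refine le_trans ?_ ha'
      exact_mod_cast low_rad_le _ ha1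
    · -- number of prime factors
      have h1 : om (nn v) ≤ om v.1 + om v.2 + om (v.1 + v.2) := by
        unfold nn
        refine (low_om_mul _ _ (by positivity) (by omega)).trans ?_
        have := low_om_mul v.1 v.2 (by omega) (by omega)
        omega
      have hl2 : 0 < Real.log 2 := Real.log_pos (by norm_num)
      have h2 : ∀ n : ℕ, (2 : ℝ) ^ om n ≤ T → (om n : ℝ) * Real.log 2 ≤ Real.log T := by
        intro n hn
        rw [← Real.log_pow]
        exact Real.log_le_log (by positivity) hn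
      have h3 := h2 _ ho1
      have h4 := h2 _ ho2
      have h5 := h2 _ ho3
      have h6 : (om (nn v) : ℝ) * Real.log 2 ≤ 3 * Real.log T := by
        have : (om (nn v) : ℝ) ≤ om v.1 + om v.2 + om (v.1 + v.2) := by exact_mod_cast h1
        have h7 := mul_le_mul_of_nonneg_right this hl2.le
        linarith
      have hl4 : 4 ≤ Real.log X := by
        have h7 : Real.log 64 ≤ Real.log X := Real.log_le_log (by norm_num) hX
        have h8 : Real.log 64 = 6 * Real.log 2 := by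
          rw [show (64 : ℝ) = 2 ^ 6 by norm_num, Real.log_pow]; norm_num
        have := Real.log_two_gt_d9
        linarith
      have hll : 2 * Real.log 2 ≤ Real.log (Real.log X) := by
        rw [show 2 * Real.log 2 = Real.log 4 by
          rw [show (4 : ℝ) = 2 ^ 2 by norm_num, Real.log_pow]; norm_num]
        exact Real.log_le_log (by norm_num) hl4
      have hTl : T ≤ 128 * Real.log X ^ 2 := by
        have e1 : (1 + Real.log X) ^ 2 ≤ (5 / 4 * Real.log X) ^ 2 :=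
          pow_le_pow_left₀ (by linarith) (by linarith) 2
        have e2 : (5 / 4 * Real.log X) ^ 2 = 25 / 16 * Real.log X ^ 2 := by ring
        have e3 : 0 ≤ Real.log X ^ 2 := sq_nonneg _
        rw [hT]
        linarith
      have hlT : Real.log T ≤ 7 * Real.log 2 + 2 * Real.log (Real.log X) := by
        calc Real.log T ≤ Real.log (128 * Real.log X ^ 2) := Real.log_le_log (by linarith) hTl
          _ = 7 * Real.log 2 + 2 * Real.log (Real.log X) := by
              rw [Real.log_mul (by norm_num) (by positivity), Real.log_pow,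
                show (128 : ℝ) = 2 ^ 7 by norm_num, Real.log_pow]
              norm_num
      have hl2' := Real.log_two_gt_d9
      have h9 : (om (nn v) : ℝ) * Real.log 2 ≤ (40 * Real.log (Real.log X)) * Real.log 2 := by
        have e1 : (0.6 : ℝ) * (40 * Real.log (Real.log X)) ≤
            Real.log 2 * (40 * Real.log (Real.log X)) :=
          mul_le_mul_of_nonneg_right (by linarith) (by linarith)
        linarith
      have h10 := le_of_mul_le_mul_right h9 hl2
      exact_mod_cast h10.trans hk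
    · unfold hh
      refine Real.log_le_log (by push_cast; linarith) ?_
      refine le_trans ?_ hnn
      unfold nn
      push_cast
      have e1 : (1 : ℝ) ≤ v.1 * v.2 := by nlinarith
      calc (v.1 : ℝ) + v.2 = 1 * ((v.1 : ℝ) + v.2) := (one_mul _).symm
        _ ≤ (v.1 * v.2) * ((v.1 : ℝ) + v.2) := mul_le_mul_of_nonneg_right e1 (by linarith)

end Pool.FEW
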